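import Pool.Agent.R790.Mm.ConcTail

/-! The space of nontrivial mm-spaces is contractible, for the box topology and for the
concentration topology. -/

set_option autoImplicit false

namespace Pool.Agent.Results.MP_de432b_gt.PuncturedContractible

open Pool.Agent.R790.Mm

/-- The subspace topology on `X_*` (`Xs`) of the topology of the given (pseudo)metric on the set
`XX` of mm-isomorphism classes. -/
abbrev xsTop (m : PseudoMetricSpace XX) : TopologicalSpace Xs :=
  @instTopologicalSpaceSubtype XX (fun x => x ≠ ptX) m.toUniformSpace.toTopologicalSpace

/-- `X_*` is contractible for the box topology and for the concentration topology. -/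
theorem result :
    @ContractibleSpace Xs (xsTop boxPM) ∧ @ContractibleSpace Xs (xsTop concPM) :=
  ⟨@xs_contractible boxPM.toUniformSpace.toTopologicalSpace box_mixCont,
    @xs_contractible concPM.toUniformSpace.toTopologicalSpace conc_mixCont⟩

end Pool.Agent.Results.MP_de432b_gt.PuncturedContractible
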